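import Pool.Agent.Helper15.LP.Defs

set_option autoImplicit false

/-!
LEVEL: the distribution of one level.
-/

open Finset
open scoped Classical
open Pool.Agent.Helper15.LR

namespace Pool.Agent.Helper15.LP

noncomputable section

section LEVEL

variable {V : Type} [Fintype V]

/-- the elements of `R` -/
def LEVEL_I (R : Finset V) : Type := {b // b ∈ R}

instance LEVEL_fin (R : Finset V) : Fintype (LEVEL_I R) :=
  inferInstanceAs (Fintype {b // b ∈ R})

theorem LEVEL_sum_coe (R : Finset V) (f : V → ℝ) : ∑ i : LEVEL_I R, f i.1 = ∑ b ∈ R, f b :=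
  Finset.sum_coe_sort R f

theorem LEVEL_card (R : Finset V) : Fintype.card (LEVEL_I R) ≤ Fintype.card V :=
  (Fintype.card_coe R).le.trans (Finset.card_le_univ R)

/-- glue `x` outside `R` and `ε` on `R` -/
def LEVEL_glue (R : Finset V) (x : V → Bool) (ε : LEVEL_I R → Bool) (v : V) : Bool :=
  if h : v ∈ R then ε ⟨v, h⟩ else x v

theorem LEVEL_glue_in (R : Finset V) (x : V → Bool) (ε : LEVEL_I R → Bool) (v : V)
    (h : v ∈ R) : LEVEL_glue R x ε v = ε ⟨v, h⟩ := by
  unfold LEVEL_glue
  rw [dif_pos h]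

theorem LEVEL_glue_out (R : Finset V) (x : V → Bool) (ε : LEVEL_I R → Bool) (v : V)
    (h : v ∉ R) : LEVEL_glue R x ε v = x v := by
  unfold LEVEL_glue
  rw [dif_neg h]

theorem LEVEL_sum (R : Finset V) (x : V → Bool) (F : (V → Bool) → ℝ) :
    ∑ y, (if (∀ v, v ∉ R → y v = x v) then F y else 0) =
      ∑ ε : LEVEL_I R → Bool, F (LEVEL_glue R x ε) := by
  rw [← Finset.sum_filter]
  refine Finset.sum_bij' (fun y _ => fun b : LEVEL_I R => y b.1)
    (fun ε _ => LEVEL_glue R x ε) ?_ ?_ ?_ ?_ ?_
  · intro y _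
    exact Finset.mem_univ _
  · intro ε _
    refine Finset.mem_filter.2 ⟨Finset.mem_univ _, ?_⟩
    intro v hv
    exact LEVEL_glue_out R x ε v hv
  · intro y hy
    have hy' := (Finset.mem_filter.1 hy).2
    funext v
    by_cases h : v ∈ R
    · rw [LEVEL_glue_in R x _ v h]
    · rw [LEVEL_glue_out R x _ v h, hy' v h]
  · intro ε _
    funext b
    exact LEVEL_glue_in R x ε b.1 b.2
  · intro y hy
    have hy' := (Finset.mem_filter.1 hy).2
    have h1 : LEVEL_glue R x (fun b : LEVEL_I R => y b.1) = y := by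
      funext v
      by_cases h : v ∈ R
      · rw [LEVEL_glue_in R x _ v h]
      · rw [LEVEL_glue_out R x _ v h, hy' v h]
    rw [h1]

/-- the vectors of the walk -/
def LEVEL_vec (G : SimpleGraph V) (D : ℕ) (b : V) : V ⊕ V → ℝ :=
  Sum.elim (fun u => (if u = b then 1 else 0) / Real.sqrt 2)
    (fun u => (if G.Adj b u then 1 / Real.sqrt D else 0) / Real.sqrt 2)

/-- the test vector -/
def LEVEL_th (G : SimpleGraph V) (D : ℕ) (f : V → ℝ) : V ⊕ V → ℝ :=
  Sum.elim (fun u => Real.sqrt 2 * (f u - Av G f u / D)) (fun u => Real.sqrt 2 * (f u / Real.sqrt D))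

theorem LEVEL_vec_norm (G : SimpleGraph V) (D : ℕ) (hG : Reg G D) (hD : 1 ≤ D) (b : V) :
    ∑ x, LEVEL_vec G D b x ^ 2 ≤ 1 := by
  have h2 : Real.sqrt 2 ^ 2 = 2 := Real.sq_sqrt (by norm_num)
  have hDr : (0 : ℝ) < D := by exact_mod_cast hD
  have hD2 : Real.sqrt D ^ 2 = D := Real.sq_sqrt hDr.le
  rw [Fintype.sum_sum_type]
  have e1 : ∑ u : V, LEVEL_vec G D b (Sum.inl u) ^ 2 = 1 / 2 := by
    rw [Finset.sum_eq_single b]
    · unfold LEVEL_vec
      rw [Sum.elim_inl, if_pos rfl, div_pow, h2, one_pow]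
    · intro u _ hu
      unfold LEVEL_vec
      rw [Sum.elim_inl, if_neg hu, zero_div, zero_pow two_ne_zero]
    · intro h
      exact absurd (Finset.mem_univ _) h
  have e2 : ∑ u : V, LEVEL_vec G D b (Sum.inr u) ^ 2 = 1 / 2 := by
    have e3 : ∀ u : V, LEVEL_vec G D b (Sum.inr u) ^ 2 = if G.Adj b u then 1 / (2 * (D : ℝ)) else 0 := by
      intro u
      unfold LEVEL_vec
      rw [Sum.elim_inr]
      by_cases h : G.Adj b u
      · rw [if_pos h, if_pos h, div_pow, div_pow, h2, hD2, one_pow, div_div, mul_comm]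
      · rw [if_neg h, if_neg h, zero_div, zero_pow two_ne_zero]
    rw [Finset.sum_congr rfl (fun u _ => e3 u), ← Finset.sum_filter, Finset.sum_const]
    have e4 : (univ.filter (fun u => G.Adj b u)).card = D := hG b
    rw [e4, nsmul_eq_mul]
    field_simp
  rw [e1, e2]
  norm_num

theorem LEVEL_inner (G : SimpleGraph V) (D : ℕ) (hD : 1 ≤ D) (f : V → ℝ) (b : V) :
    ∑ x, LEVEL_vec G D b x * LEVEL_th G D f x = f b := by
  have h2 : Real.sqrt 2 * Real.sqrt 2 = 2 := Real.mul_self_sqrt (by norm_num)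
  have h20 : Real.sqrt 2 ≠ 0 := by positivity
  have hDr : (0 : ℝ) < D := by exact_mod_cast hD
  have hD2 : Real.sqrt D * Real.sqrt D = D := Real.mul_self_sqrt hDr.le
  have hD0 : Real.sqrt D ≠ 0 := (Real.sqrt_pos.2 hDr).ne'
  rw [Fintype.sum_sum_type]
  have e1 : ∑ u : V, LEVEL_vec G D b (Sum.inl u) * LEVEL_th G D f (Sum.inl u) =
      f b - Av G f b / D := by
    rw [Finset.sum_eq_single b]
    · unfold LEVEL_vec LEVEL_th
      rw [Sum.elim_inl, Sum.elim_inl, if_pos rfl]
      field_simp
    · intro u _ hu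
      unfold LEVEL_vec
      rw [Sum.elim_inl, if_neg hu, zero_div, zero_mul]
    · intro h
      exact absurd (Finset.mem_univ _) h
  have e2 : ∑ u : V, LEVEL_vec G D b (Sum.inr u) * LEVEL_th G D f (Sum.inr u) = Av G f b / D := by
    have e3 : ∀ u : V, LEVEL_vec G D b (Sum.inr u) * LEVEL_th G D f (Sum.inr u) =
        if G.Adj b u then f u / D else 0 := by
      intro u
      unfold LEVEL_vec LEVEL_th
      rw [Sum.elim_inr, Sum.elim_inr]
      by_cases h : G.Adj b u
      · rw [if_pos h, if_pos h]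
        have : (1 / Real.sqrt D / Real.sqrt 2) * (Real.sqrt 2 * (f u / Real.sqrt D)) =
            f u / (Real.sqrt D * Real.sqrt D) := by
          field_simp
        rw [this, hD2]
      · rw [if_neg h, if_neg h, zero_div, zero_mul]
    rw [Finset.sum_congr rfl (fun u _ => e3 u), ← Finset.sum_filter]
    unfold Av Nb
    rw [Finset.sum_div]
  rw [e1, e2]
  ring

theorem LEVEL_th_norm (G : SimpleGraph V) (D : ℕ) (hD : 1 ≤ D) (f : V → ℝ) :
    ∑ x, LEVEL_th G D f x ^ 2 = 2 * (Sm G D f + S2 f / D) := by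
  have h2 : Real.sqrt 2 ^ 2 = 2 := Real.sq_sqrt (by norm_num)
  have hDr : (0 : ℝ) < D := by exact_mod_cast hD
  have hD2 : Real.sqrt D ^ 2 = D := Real.sq_sqrt hDr.le
  rw [Fintype.sum_sum_type]
  unfold LEVEL_th Sm S2
  simp only [Sum.elim_inl, Sum.elim_inr, mul_pow, div_pow, h2, hD2]
  rw [← Finset.mul_sum, ← Finset.mul_sum, ← Finset.sum_div]
  ring

end LEVEL

theorem LEVEL_half {V : Type} [Fintype V] (u v : V) (huv : u ≠ v) (c : ℝ) :
    2 * ∑ x : V → Bool, (if x u = x v then c else 0) = 2 ^ Fintype.card V * c := by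
  have hinv : Function.Involutive (fun x : V → Bool => Function.update x u (! x u)) := by
    intro x
    funext w
    by_cases hw : w = u
    · subst hw
      simp
    · simp [Function.update_of_ne hw]
  have h1 : ∑ x : V → Bool, (if x u = x v then c else 0) =
      ∑ x : V → Bool, (if x u = x v then 0 else c) := by
    rw [← Equiv.sum_comp (Function.Involutive.toPerm _ hinv) (fun x : V → Bool => if x u = x v then c else 0)]
    refine Finset.sum_congr rfl fun x _ => ?_
    have e1 : Function.Involutive.toPerm _ hinv x u = ! x u := by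
      show Function.update x u (! x u) u = ! x u
      rw [Function.update_self]
    have e2 : Function.Involutive.toPerm _ hinv x v = x v := by
      show Function.update x u (! x u) v = x v
      rw [Function.update_of_ne huv.symm]
    rw [e1, e2]
    cases x u <;> cases x v <;> simp
  have h2 : ∑ x : V → Bool, (if x u = x v then c else 0) +
      ∑ x : V → Bool, (if x u = x v then 0 else c) = 2 ^ Fintype.card V * c := by
    rw [← Finset.sum_add_distrib]
    have : ∀ x : V → Bool, (if x u = x v then c else 0) + (if x u = x v then 0 else c) = c := by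
      intro x
      by_cases h : x u = x v
      · rw [if_pos h, if_pos h, add_zero]
      · rw [if_neg h, if_neg h, zero_add]
    rw [Finset.sum_congr rfl (fun x _ => this x), Finset.sum_const, Finset.card_univ,
      nsmul_eq_mul]
    rw [Fintype.card_fun, Fintype.card_bool]
    push_cast
    ring
  linarith

/-- LEVEL: existence of the distribution of one level. -/
theorem lp_LEVEL (hBAL : Balance_stmt) : Level_stmt := by
  intro V _ G D m R hG hD hm
  have hmr : (1 : ℝ) ≤ m := by exact_mod_cast hm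
  -- the walk for every `x`
  have hex : ∀ x : V → Bool, ∃ W : (LEVEL_I R → Bool) → ℝ, (∀ ε, 0 ≤ W ε) ∧ ∑ ε, W ε = 1 ∧
      ((∀ b ∈ R, |mu G R x b| ≤ 1 / 2) → ∀ (θ : V ⊕ V → ℝ) (T t : ℝ), ∑ z, θ z ^ 2 ≤ T →
        0 < T → 0 ≤ t →
        ∑ ε, (if t < |∑ i : LEVEL_I R, (sgn (ε i) - mu G R x i.1) *
            ∑ z, LEVEL_vec G D i.1 z * θ z| then W ε else 0) ≤
          2 * Real.exp (-(t ^ 2 / (2 * (128 * m) * T))) +
            2 * Fintype.card (LEVEL_I R) * Real.exp (-((128 * m) / 32))) ∧
      (∀ i b, ∑ ε, (if ε i = b then W ε else 0) ≤ 7 / 8) ∧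
      (∀ i j, i ≠ j → ∑ ε, (if ε i = ε j then W ε else 0) ≤ 7 / 8) := by
    intro x
    by_cases hx : ∀ b ∈ R, |mu G R x b| ≤ 1 / 2
    · obtain ⟨W, h1, h2, h3, h4, h5⟩ := hBAL (LEVEL_I R) (V ⊕ V) (fun i => LEVEL_vec G D i.1)
        (fun i => mu G R x i.1) (128 * m) (by linarith)
        (fun i => LEVEL_vec_norm G D hG hD i.1) (fun i => hx i.1 i.2)
      exact ⟨W, h1, h2, fun _ => h3, h4, h5⟩
    · obtain ⟨W, h1, h2, h3, h4, h5⟩ := hBAL (LEVEL_I R) (V ⊕ V) (fun i => LEVEL_vec G D i.1)
        (fun _ => 0) (128 * m) (by linarith)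
        (fun i => LEVEL_vec_norm G D hG hD i.1) (fun i => by rw [abs_zero]; norm_num)
      exact ⟨W, h1, h2, fun h => absurd h hx, h4, h5⟩
  choose W hW0 hW1 hW3 hW4 hW5 using hex
  let w : (V → Bool) × (V → Bool) → ℝ := fun p =>
    if (∀ v, v ∉ R → p.2 v = p.1 v) then
      (1 / 2) ^ Fintype.card V * W p.1 (fun b : LEVEL_I R => p.2 b.1) else 0
  have hhalf : (0 : ℝ) ≤ (1 / 2) ^ Fintype.card V := by positivity
  -- sums over `y`
  have hsum : ∀ (x : V → Bool) (P : (V → Bool) → Prop) [DecidablePred P],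
      ∑ y, (if P y then w (x, y) else 0) =
        (1 / 2) ^ Fintype.card V * ∑ ε, (if P (LEVEL_glue R x ε) then W x ε else 0) := by
    intro x P _
    have e1 : ∀ y, (if P y then w (x, y) else 0) =
        (if (∀ v, v ∉ R → y v = x v) then (if P y then
          (1 / 2) ^ Fintype.card V * W x (fun b : LEVEL_I R => y b.1) else 0) else 0) := by
      intro y
      by_cases h : ∀ v, v ∉ R → y v = x v
      · simp only [w, if_pos h]
      · simp only [w, if_neg h, ite_self]
    rw [Finset.sum_congr rfl (fun y _ => e1 y),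
      LEVEL_sum R x (fun y => if P y then
          (1 / 2) ^ Fintype.card V * W x (fun b : LEVEL_I R => y b.1) else 0), Finset.mul_sum]
    refine Finset.sum_congr rfl fun ε _ => ?_
    have e2 : (fun b : LEVEL_I R => LEVEL_glue R x ε b.1) = ε := by
      funext b
      exact LEVEL_glue_in R x ε b.1 b.2
    show (if P (LEVEL_glue R x ε) then (1 / 2) ^ Fintype.card V *
      W x (fun b : LEVEL_I R => LEVEL_glue R x ε b.1) else 0) = _
    rw [e2, mul_ite, mul_zero]
  have hxsum : ∀ c : ℝ, ∑ _x : V → Bool, c = 2 ^ Fintype.card V * c := by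
    intro c
    rw [Finset.sum_const, Finset.card_univ, nsmul_eq_mul, Fintype.card_fun, Fintype.card_bool]
    push_cast
    ring
  have hpow : (2 : ℝ) ^ Fintype.card V * (1 / 2) ^ Fintype.card V = 1 := by
    rw [← mul_pow]
    norm_num
  refine ⟨w, ?_, ?_, ?_, ?_, ?_⟩
  · intro p
    simp only [w]
    by_cases h : ∀ v, v ∉ R → p.2 v = p.1 v
    · rw [if_pos h]
      exact mul_nonneg hhalf (hW0 _ _)
    · rw [if_neg h]
  · intro x
    have h1 := hsum x (fun _ => True)
    simp only [if_true] at h1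
    rw [h1, hW1 x, mul_one]
  · intro x y v hne hv
    by_contra h
    refine hne ?_
    simp only [w]
    rw [if_neg]
    intro h2
    exact h (h2 v hv)
  · intro x hx f T t hT hT0 ht
    rw [hsum x (fun y => t < |∑ b ∈ R, (sgn (y b) - mu G R x b) * f b|)]
    refine mul_le_mul_of_nonneg_left ?_ hhalf
    have h1 := hW3 x hx (LEVEL_th G D f) T t ((LEVEL_th_norm G D hD f).le.trans hT) hT0 ht
    have e1 : ∀ ε : LEVEL_I R → Bool, ∑ i : LEVEL_I R, (sgn (ε i) - mu G R x i.1) *
        ∑ z, LEVEL_vec G D i.1 z * LEVEL_th G D f z =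
        ∑ b ∈ R, (sgn (LEVEL_glue R x ε b) - mu G R x b) * f b := by
      intro ε
      rw [← LEVEL_sum_coe R (fun b => (sgn (LEVEL_glue R x ε b) - mu G R x b) * f b)]
      refine Finset.sum_congr rfl fun i _ => ?_
      have e6 : LEVEL_glue R x ε i.1 = ε i := LEVEL_glue_in R x ε i.1 i.2
      rw [LEVEL_inner G D hD f i.1, e6]
    simp only [e1] at h1
    refine h1.trans ?_
    have e2 : 2 * (128 * (m : ℝ)) * T = 256 * m * T := by ring
    have e3 : 128 * (m : ℝ) / 32 = 4 * m := by ring
    have e4 : (Fintype.card (LEVEL_I R) : ℝ) ≤ Fintype.card V := by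
      exact_mod_cast LEVEL_card R
    rw [e2, e3]
    have e5 := Real.exp_pos (-(4 * (m : ℝ)))
    nlinarith
  · intro u v huv
    by_cases hu : u ∈ R
    · have key : ∀ x : V → Bool, ∑ y, (if y u = y v then w (x, y) else 0) ≤
          (1 / 2) ^ Fintype.card V * (7 / 8) := by
        intro x
        rw [hsum x (fun y => y u = y v)]
        refine mul_le_mul_of_nonneg_left ?_ hhalf
        by_cases hv : v ∈ R
        · have h1 := hW5 x ⟨u, hu⟩ ⟨v, hv⟩ (fun h => huv (Subtype.mk.inj h))
          refine le_trans (le_of_eq ?_) h1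
          refine Finset.sum_congr rfl fun ε _ => ?_
          rw [LEVEL_glue_in R x ε u hu, LEVEL_glue_in R x ε v hv]
        · have h1 := hW4 x ⟨u, hu⟩ (x v)
          refine le_trans (le_of_eq ?_) h1
          refine Finset.sum_congr rfl fun ε _ => ?_
          rw [LEVEL_glue_in R x ε u hu, LEVEL_glue_out R x ε v hv]
      refine (Finset.sum_le_sum fun x _ => key x).trans ?_
      rw [hxsum, ← mul_assoc, hpow, one_mul]
    · by_cases hv : v ∈ R
      · have key : ∀ x : V → Bool, ∑ y, (if y u = y v then w (x, y) else 0) ≤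
            (1 / 2) ^ Fintype.card V * (7 / 8) := by
          intro x
          rw [hsum x (fun y => y u = y v)]
          refine mul_le_mul_of_nonneg_left ?_ hhalf
          have h1 := hW4 x ⟨v, hv⟩ (x u)
          refine le_trans (le_of_eq ?_) h1
          refine Finset.sum_congr rfl fun ε _ => ?_
          rw [LEVEL_glue_out R x ε u hu, LEVEL_glue_in R x ε v hv]
          by_cases h : x u = ε ⟨v, hv⟩
          · rw [if_pos h, if_pos h.symm]
          · rw [if_neg h, if_neg (Ne.symm h)]
        refine (Finset.sum_le_sum fun x _ => key x).trans ?_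
        rw [hxsum, ← mul_assoc, hpow, one_mul]
      · have key : ∀ x : V → Bool, ∑ y, (if y u = y v then w (x, y) else 0) =
            (if x u = x v then (1 / 2) ^ Fintype.card V else 0) := by
          intro x
          rw [hsum x (fun y => y u = y v)]
          have e1 : ∀ ε : LEVEL_I R → Bool,
              (if LEVEL_glue R x ε u = LEVEL_glue R x ε v then W x ε else 0) =
              (if x u = x v then W x ε else 0) := by
            intro ε
            rw [LEVEL_glue_out R x ε u hu, LEVEL_glue_out R x ε v hv]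
          rw [Finset.sum_congr rfl (fun ε _ => e1 ε)]
          by_cases h : x u = x v
          · simp only [if_pos h]
            rw [hW1 x, mul_one]
          · simp only [if_neg h]
            rw [Finset.sum_const_zero, mul_zero]
        rw [Finset.sum_congr rfl (fun x _ => key x)]
        have h1 := LEVEL_half u v huv ((1 / 2) ^ Fintype.card V)
        rw [hpow] at h1
        linarith

end

end Pool.Agent.Helper15.LP
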