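import Pool.Agent.Helper15.LP.Defs
import Pool.Agent.Helper15.LR.R1

set_option autoImplicit false

/-!
ROUNDQ: rounding (Beck–Fiala with groups, every pair in at most `q` constraints).
-/

open Finset
open scoped Classical
open Pool.Agent.Helper15.LR

namespace Pool.Agent.Helper15.LP

noncomputable section

section RQ

variable {ι O C : Type} [Fintype ι] [Fintype O] [Fintype C]

/-- active constraints -/
def RQ_act (q : ℕ) (R : ι → O → C → Prop) (x : ι → O → ℝ) : Finset C :=
  univ.filter (fun c => 2 * q + 1 ≤ (R1_fc R x c).card)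

theorem RQ_act_card (q : ℕ) (R : ι → O → C → Prop) (x : ι → O → ℝ)
    (hR : ∀ i o, (univ.filter (fun c => R i o c)).card ≤ q) :
    (2 * q + 1) * (RQ_act q R x).card ≤ q * (R1_Fl x).card := by
  have h1 : (2 * q + 1) * (RQ_act q R x).card ≤ ∑ c ∈ RQ_act q R x, (R1_fc R x c).card := by
    rw [mul_comm, ← smul_eq_mul]
    refine Finset.card_nsmul_le_sum _ _ (2 * q + 1) ?_
    intro c hc
    exact (Finset.mem_filter.1 hc).2
  refine h1.trans ?_
  have h2 : ∑ c ∈ RQ_act q R x, (R1_fc R x c).card ≤ ∑ c, (R1_fc R x c).card :=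
    Finset.sum_le_sum_of_subset (Finset.subset_univ _)
  refine h2.trans ?_
  have h3 : ∑ c, (R1_fc R x c).card =
      ∑ p ∈ R1_Fl x, (univ.filter (fun c => R p.1 p.2 c)).card := by
    unfold R1_fc
    simp only [Finset.card_filter]
    rw [Finset.sum_comm]
  rw [h3, mul_comm, ← smul_eq_mul]
  refine Finset.sum_le_card_nsmul _ _ q ?_
  intro p _
  exact hR p.1 p.2

/-- a nonzero direction -/
theorem RQ_dir (q : ℕ) (hq : 1 ≤ q) (R : ι → O → C → Prop) (x : ι → O → ℝ) (hx : ∀ i o, 0 ≤ x i o)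
    (hs : ∀ i, ∑ o, x i o = 1) (hR : ∀ i o, (univ.filter (fun c => R i o c)).card ≤ q)
    (hne : 0 < (R1_Fl x).card) :
    ∃ y : ι → O → ℝ, (∃ i o, y i o ≠ 0) ∧ (∀ i o, (i, o) ∉ R1_Fl x → y i o = 0) ∧
      (∀ i, ∑ o, y i o = 0) ∧
      (∀ c, 2 * q + 1 ≤ (R1_fc R x c).card → ∑ i, ∑ o, (if R i o c then y i o else 0) = 0) := by
  have hr := R1_rows_card x hx hs
  have ha := RQ_act_card q R x hR
  -- extension by zero
  let ext : ({p // p ∈ R1_Fl x} → ℝ) → ι → O → ℝ :=
    fun z i o => if h : (i, o) ∈ R1_Fl x then z ⟨(i, o), h⟩ else 0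
  have ext_add : ∀ z z' i o, ext (z + z') i o = ext z i o + ext z' i o := by
    intro z z' i o
    by_cases h : (i, o) ∈ R1_Fl x
    · simp only [ext, dif_pos h, Pi.add_apply]
    · simp only [ext, dif_neg h, add_zero]
  have ext_smul : ∀ (a : ℝ) z i o, ext (a • z) i o = a * ext z i o := by
    intro a z i o
    by_cases h : (i, o) ∈ R1_Fl x
    · simp only [ext, dif_pos h, Pi.smul_apply, smul_eq_mul]
    · simp only [ext, dif_neg h, mul_zero]
  let T : ({p // p ∈ R1_Fl x} → ℝ) →ₗ[ℝ] ({i // i ∈ R1_rows x} → ℝ) × ({c // c ∈ RQ_act q R x} → ℝ) :=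
    { toFun := fun z => (fun i => ∑ o, ext z i.1 o,
        fun c => ∑ i, ∑ o, (if R i o c.1 then ext z i o else 0))
      map_add' := by
        intro z z'
        refine Prod.ext ?_ ?_
        · funext i
          show ∑ o, ext (z + z') i.1 o = ∑ o, ext z i.1 o + ∑ o, ext z' i.1 o
          rw [← Finset.sum_add_distrib]
          exact Finset.sum_congr rfl fun o _ => ext_add z z' i.1 o
        · funext c
          show ∑ i, ∑ o, (if R i o c.1 then ext (z + z') i o else 0) =
            ∑ i, ∑ o, (if R i o c.1 then ext z i o else 0) +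
            ∑ i, ∑ o, (if R i o c.1 then ext z' i o else 0)
          rw [← Finset.sum_add_distrib]
          refine Finset.sum_congr rfl fun i _ => ?_
          rw [← Finset.sum_add_distrib]
          refine Finset.sum_congr rfl fun o _ => ?_
          by_cases h : R i o c.1
          · rw [if_pos h, if_pos h, if_pos h, ext_add]
          · rw [if_neg h, if_neg h, if_neg h, add_zero]
      map_smul' := by
        intro a z
        refine Prod.ext ?_ ?_
        · funext i
          show ∑ o, ext (a • z) i.1 o = a * ∑ o, ext z i.1 o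
          rw [Finset.mul_sum]
          exact Finset.sum_congr rfl fun o _ => ext_smul a z i.1 o
        · funext c
          show ∑ i, ∑ o, (if R i o c.1 then ext (a • z) i o else 0) =
            a * ∑ i, ∑ o, (if R i o c.1 then ext z i o else 0)
          rw [Finset.mul_sum]
          refine Finset.sum_congr rfl fun i _ => ?_
          rw [Finset.mul_sum]
          refine Finset.sum_congr rfl fun o _ => ?_
          by_cases h : R i o c.1
          · rw [if_pos h, if_pos h, ext_smul]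
          · rw [if_neg h, if_neg h, mul_zero] }
  have hker : LinearMap.ker T ≠ ⊥ := by
    refine LinearMap.ker_ne_bot_of_finrank_lt ?_
    rw [Module.finrank_prod, Module.finrank_fintype_fun_eq_card,
      Module.finrank_fintype_fun_eq_card, Module.finrank_fintype_fun_eq_card,
      Fintype.card_coe, Fintype.card_coe, Fintype.card_coe]
    by_contra hcon
    rw [not_lt] at hcon
    have e1 : (2 * q + 1) * (R1_Fl x).card ≤
        (2 * q + 1) * ((R1_rows x).card + (RQ_act q R x).card) := Nat.mul_le_mul_left _ hcon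
    have e2 : (2 * q + 1) * (2 * (R1_rows x).card) ≤ (2 * q + 1) * (R1_Fl x).card :=
      Nat.mul_le_mul_left _ hr
    nlinarith
  obtain ⟨z, hz, hz0⟩ := (Submodule.ne_bot_iff _).1 hker
  have hT : T z = 0 := LinearMap.mem_ker.1 hz
  have hT1 : ∀ i : {i // i ∈ R1_rows x}, ∑ o, ext z i.1 o = 0 := by
    intro i
    have := congrArg (fun q => q.1 i) hT
    exact this
  have hT2 : ∀ c : {c // c ∈ RQ_act q R x}, ∑ i, ∑ o, (if R i o c.1 then ext z i o else 0) = 0 := by
    intro c
    have := congrArg (fun q => q.2 c) hT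
    exact this
  refine ⟨ext z, ?_, ?_, ?_, ?_⟩
  · by_contra h
    push Not at h
    refine hz0 (funext fun p => ?_)
    have h1 := h p.1.1 p.1.2
    have h2 : (p.1.1, p.1.2) ∈ R1_Fl x := p.2
    simp only [ext, dif_pos h2] at h1
    exact h1
  · intro i o h
    simp only [ext, dif_neg h]
  · intro i
    by_cases h : i ∈ R1_rows x
    · exact hT1 ⟨i, h⟩
    · refine Finset.sum_eq_zero fun o _ => ?_
      have h1 : (i, o) ∉ R1_Fl x := fun h2 =>
        h (Finset.mem_filter.2 ⟨Finset.mem_univ _, o, h2⟩)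
      simp only [ext, dif_neg h1]
  · intro c hc
    exact hT2 ⟨c, Finset.mem_filter.2 ⟨Finset.mem_univ _, hc⟩⟩

theorem RQ_move (q : ℕ) (hq : 1 ≤ q) (R : ι → O → C → Prop) (x : ι → O → ℝ) (hx : ∀ i o, 0 ≤ x i o)
    (hs : ∀ i, ∑ o, x i o = 1) (hR : ∀ i o, (univ.filter (fun c => R i o c)).card ≤ q)
    (hne : 0 < (R1_Fl x).card) :
    ∃ x' : ι → O → ℝ, (∀ i o, 0 ≤ x' i o) ∧ (∀ i, ∑ o, x' i o = 1) ∧
      (R1_Fl x').card < (R1_Fl x).card ∧ (∀ i o, 0 < x' i o → 0 < x i o) ∧
      (∀ c, 2 * q + 1 ≤ (R1_fc R x c).card → ∑ i, ∑ o, (if R i o c then x' i o else 0) =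
        ∑ i, ∑ o, (if R i o c then x i o else 0)) := by
  obtain ⟨y, ⟨i₁, o₁, hy1⟩, hy0, hyr, hyc⟩ := RQ_dir q hq R x hx hs hR hne
  have hneg : ∃ o, y i₁ o < 0 := by
    by_contra h
    push Not at h
    have h1 := (Finset.sum_eq_zero_iff_of_nonneg (fun o _ => h o)).1 (hyr i₁) o₁ (Finset.mem_univ _)
    exact hy1 h1
  obtain ⟨o₂, ho₂⟩ := hneg
  let S : Finset (ι × O) := univ.filter (fun p => y p.1 p.2 < 0)
  have hS : S.Nonempty := ⟨(i₁, o₂), Finset.mem_filter.2 ⟨Finset.mem_univ _, ho₂⟩⟩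
  obtain ⟨p₀, hp₀, hmin⟩ := Finset.exists_min_image S (fun p => x p.1 p.2 / (-y p.1 p.2)) hS
  have hp₀' : y p₀.1 p₀.2 < 0 := (Finset.mem_filter.1 hp₀).2
  have hp₀F : p₀ ∈ R1_Fl x := by
    by_contra h
    have := hy0 p₀.1 p₀.2 h
    rw [this] at hp₀'
    exact lt_irrefl _ hp₀'
  let t : ℝ := x p₀.1 p₀.2 / (-y p₀.1 p₀.2)
  have ht : 0 ≤ t := div_nonneg (hx _ _) (by linarith)
  let x' : ι → O → ℝ := fun i o => x i o + t * y i o
  have hx' : ∀ i o, 0 ≤ x' i o := by
    intro i o
    show 0 ≤ x i o + t * y i o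
    by_cases h : y i o < 0
    · have h1 := hmin (i, o) (Finset.mem_filter.2 ⟨Finset.mem_univ _, h⟩)
      dsimp only at h1
      have h2 : t * (-y i o) ≤ x i o := by
        have h3 : (0:ℝ) < -y i o := by linarith
        exact (le_div_iff₀ h3).1 h1
      linarith
    · have := mul_nonneg ht (not_lt.1 h)
      have := hx i o
      linarith
  have hs' : ∀ i, ∑ o, x' i o = 1 := by
    intro i
    show ∑ o, (x i o + t * y i o) = 1
    rw [Finset.sum_add_distrib, ← Finset.mul_sum, hyr i, mul_zero, add_zero, hs i]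
  have hout : ∀ i o, (i, o) ∉ R1_Fl x → x' i o = x i o := by
    intro i o h
    show x i o + t * y i o = x i o
    rw [hy0 i o h, mul_zero, add_zero]
  refine ⟨x', hx', hs', ?_, ?_, ?_⟩
  · have h1 : x' p₀.1 p₀.2 = 0 := by
      show x p₀.1 p₀.2 + x p₀.1 p₀.2 / (-y p₀.1 p₀.2) * y p₀.1 p₀.2 = 0
      have : y p₀.1 p₀.2 ≠ 0 := ne_of_lt hp₀'
      field_simp
      ring
    refine Finset.card_lt_card ((Finset.ssubset_iff_of_subset ?_).2 ⟨p₀, hp₀F, ?_⟩)
    · intro p hp
      by_contra h
      have h2 := hout p.1 p.2 h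
      rw [R1_mem_Fl, h2] at hp
      exact h ((R1_mem_Fl x p).2 hp)
    · rw [R1_mem_Fl, h1]
      exact fun h => lt_irrefl _ h.1
  · intro i o h
    by_cases h1 : (i, o) ∈ R1_Fl x
    · exact ((R1_mem_Fl x _).1 h1).1
    · rwa [hout i o h1] at h
  · intro c hc
    have h1 := hyc c hc
    have h2 : ∑ i, ∑ o, (if R i o c then x' i o else 0) =
        ∑ i, ∑ o, (if R i o c then x i o else 0) + t * ∑ i, ∑ o, (if R i o c then y i o else 0) := by
      rw [Finset.mul_sum, ← Finset.sum_add_distrib]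
      refine Finset.sum_congr rfl fun i _ => ?_
      rw [Finset.mul_sum, ← Finset.sum_add_distrib]
      refine Finset.sum_congr rfl fun o _ => ?_
      by_cases h : R i o c
      · rw [if_pos h, if_pos h, if_pos h]
      · rw [if_neg h, if_neg h, if_neg h, mul_zero, add_zero]
    rw [h2, h1, mul_zero, add_zero]

theorem RQ_main (q : ℕ) (hq : 1 ≤ q) (R : ι → O → C → Prop)
    (hR : ∀ i o, (univ.filter (fun c => R i o c)).card ≤ q) :
    ∀ (N : ℕ) (x : ι → O → ℝ), (R1_Fl x).card ≤ N → (∀ i o, 0 ≤ x i o) →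
      (∀ i, ∑ o, x i o = 1) →
      ∃ φ : ι → O, (∀ i, 0 < x i (φ i)) ∧
        ∀ c, |((univ.filter (fun i => R i (φ i) c)).card : ℝ) -
          ∑ i, ∑ o, (if R i o c then x i o else 0)| ≤ 2 * q := by
  intro N
  induction N using Nat.strong_induction_on with
  | _ N ih =>
    intro x hN hx hs
    by_cases hact : ∃ c, 2 * q + 1 ≤ (R1_fc R x c).card
    · obtain ⟨c₀, hc₀⟩ := hact
      have hne : 0 < (R1_Fl x).card := by
        have h1 : (R1_fc R x c₀).card ≤ (R1_Fl x).card := Finset.card_le_card (Finset.filter_subset _ _)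
        omega
      obtain ⟨x', h1, h2, h3, h4, h5⟩ := RQ_move q hq R x hx hs hR hne
      obtain ⟨φ, h6, h7⟩ := ih ((R1_Fl x').card) (by omega) x' le_rfl h1 h2
      have h8 : ∀ i, 0 < x i (φ i) := fun i => h4 _ _ (h6 i)
      refine ⟨φ, h8, fun c => ?_⟩
      by_cases h9 : 2 * q + 1 ≤ (R1_fc R x c).card
      · rw [← h5 c h9]
        exact h7 c
      · refine (R1_direct R x hx hs φ h8 c).trans ?_
        have : (R1_fc R x c).card ≤ 2 * q := by omega
        exact_mod_cast this
    · push Not at hact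
      have h1 : ∀ i, ∃ o, 0 < x i o := by
        intro i
        by_contra h
        push Not at h
        have h2 : ∑ o, x i o ≤ 0 := Finset.sum_nonpos fun o _ => h o
        rw [hs i] at h2
        linarith
      choose φ hφ using h1
      refine ⟨φ, hφ, fun c => ?_⟩
      refine (R1_direct R x hx hs φ hφ c).trans ?_
      have h3 := hact c
      have : (R1_fc R x c).card ≤ 2 * q := by omega
      exact_mod_cast this

end RQ

/-- ROUNDQ: rounding. -/
theorem lp_ROUNDQ : RoundQ_stmt := by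
  intro ι O C _ _ _ R w q hq hw hs hR
  exact RQ_main q hq R hR _ w le_rfl hw hs

end

end Pool.Agent.Helper15.LP
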